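import Pool.Agent.Helper241_Spread.Product

set_option autoImplicit false

namespace Pool.Agent.Results.MP_56153a_al.ExpBoundedFactor

open Pool.Agent.Helper241Spread

/-- The direct product of a supramenable group and an exponentially bounded group is supramenable.
Hence two supramenable groups whose direct product is not supramenable must both contain a finitely
generated subgroup of exponential growth. -/
theorem result (G H : Type*) [Group G] [Group H] (hG : Supramenable G) (hH : ExpBounded H) :
    Supramenable (G × H) :=
  supramenable_prod hG hH

end Pool.Agent.Results.MP_56153a_al.ExpBoundedFactor
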